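import Pool.Agent.H21.ERSurj

namespace Pool.Agent.Results.MP_e38cae_lc.Hard

open Pool.Agent.H11.PT Pool.Agent.H21.ER

theorem result : ∃ f : ℕ × Qf → ℕ × List Poly, PolyTime bits bits f ∧ ∀ p,
    (∀ g ∈ (f p).2, g.In (f p).1) ∧ (AETR p.1 p.2 ↔ Surj (f p).1 (f p).2) :=
  ⟨sred, sred_pt.polyTime, fun p => ⟨sred_in p, sred_iff p⟩⟩

end Pool.Agent.Results.MP_e38cae_lc.Hard
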